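import Mathlib
import Pool.Agent.H17.KMen

set_option autoImplicit false

namespace Pool.Agent.Results.MP_c24ba3_gt.Neg
open Set Pool.Agent.H17.KMen

def KMenger (X : Type) [TopologicalSpace X] : Prop :=
  ∀ 𝒰 : ℕ → Set (Set X), (∀ n, KCover X (𝒰 n)) → ∃ ℱ : ℕ → Set (Set X),
    (∀ n, ℱ n ⊆ 𝒰 n ∧ (ℱ n).Finite) ∧ KCover X (⋃ n, ℱ n)

def KRothberger (X : Type) [TopologicalSpace X] : Prop :=
  ∀ 𝒰 : ℕ → Set (Set X), (∀ n, KCover X (𝒰 n)) → ∃ U : ℕ → Set X,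
    (∀ n, U n ∈ 𝒰 n) ∧ KCover X (range U)

/-- The moves of P1 in rounds `0, …, n`. -/
def hist {α : Type} (a : ℕ → α) (n : ℕ) : List α := List.ofFn fun i : Fin (n + 1) => a i

def StratKMenger (X : Type) [TopologicalSpace X] : Prop :=
  ∃ σ : List (Set (Set X)) → Set (Set X), ∀ 𝒰 : ℕ → Set (Set X), (∀ n, KCover X (𝒰 n)) →
    (∀ n, σ (hist 𝒰 n) ⊆ 𝒰 n ∧ (σ (hist 𝒰 n)).Finite) ∧ KCover X (⋃ n, σ (hist 𝒰 n))

def StratKRothberger (X : Type) [TopologicalSpace X] : Prop :=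
  ∃ σ : List (Set (Set X)) → Set X, ∀ 𝒰 : ℕ → Set (Set X), (∀ n, KCover X (𝒰 n)) →
    (∀ n, σ (hist 𝒰 n) ∈ 𝒰 n) ∧ KCover X (range fun n => σ (hist 𝒰 n))

theorem result : ∃ (X : Type) (_ : TopologicalSpace X), T1Space X ∧
    (KMenger X ∧ ¬ KRothberger X) ∧ (StratKMenger X ∧ ¬ StratKRothberger X) := by
  obtain ⟨σ, h1, h2⟩ := markov
  obtain ⟨𝒱, h3, h4⟩ := noRoth
  refine ⟨X, inferInstance, inferInstance, ⟨fun 𝒰 h => ⟨_, fun n => h1 _ n (h n), h2 𝒰 h⟩,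
    fun h => ?_⟩, ⟨fun l => σ (l.getD (l.length - 1) ∅) (l.length - 1), fun 𝒰 h => ?_⟩, ?_⟩
  · obtain ⟨U, h5, h6⟩ := h 𝒱 h3
    exact h4 U h5 h6
  · have e : ∀ n, σ ((hist 𝒰 n).getD ((hist 𝒰 n).length - 1) ∅) ((hist 𝒰 n).length - 1) =
        σ (𝒰 n) n := fun n => by
      have h5 : (hist 𝒰 n).length - 1 = n := by simp [hist]
      rw [h5, List.getD_eq_getElem _ _ (by simp [hist])]
      simp only [hist, List.getElem_ofFn]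
    simp only [e]
    exact ⟨fun n => h1 _ n (h n), h2 𝒰 h⟩
  · rintro ⟨τ, hτ⟩
    exact h4 _ (hτ 𝒱 h3).1 (hτ 𝒱 h3).2

end Pool.Agent.Results.MP_c24ba3_gt.Neg
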